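import Pool.Agent.ACK.StmtsD

/-! Row WKN of squad ACK (MP_0b396c_gt). -/

set_option autoImplicit false

namespace Pool.Agent.ACK.H62

open Pool.Agent.ACK.D

theorem wkn (h1 : WclStmt) (h2 : WilStmt) (h3 : WprStmt) (h4 : WplStmt) (h5 : FouStmt) :
    WknStmt := by
  intro P hP b c hc
  have hln : ∀ i, 2 ≤ ln b i := by
    intro i
    unfold ln
    split_ifs <;> omega
  obtain ⟨-, hlen, -, hmem, hgw⟩ := h1 P hP (ln b)
  obtain ⟨hb1, hb2⟩ := h4 P hP b c hc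
  have hc3 : 3 ≤ c := by
    rw [hc]
    have : ∑ _i : Fin 6, 2 ≤ ∑ i : Fin 6, ln b i := Finset.sum_le_sum (fun i _ => hln i)
    simp at this
    omega
  have hkn : Kn c (Wd P (ln b)) := by
    refine ⟨by rw [hlen, hc], hgw, ⟨bs P, by omega⟩, ?_⟩
    exact h3 P hP (ln b) (fun i => by have := hln i; omega)
  have hup : ∀ s, nc (wd c (Wd P (ln b))) s + 3 ≤ c + 1 := by
    intro s
    by_contra hcon
    have hm : ∀ i : Fin 4, (i : ℕ) ∈ Wd P (ln b) := by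
      intro i
      rw [hmem]
      have h0 : (i : ℕ) / 6 = 0 := Nat.div_eq_of_lt (by omega)
      rw [h0]
      have := hln (cx (i : ℕ))
      omega
    obtain ⟨i, j, hij, htw⟩ := h5 c (Wd P (ln b)) s hc3 hkn (by omega) (fun i => (i : ℕ)) hm
    have hdec : ∀ i j : Fin 4, i ≠ j → ∃ k : Fin 6,
        P.Q (cx (i : ℕ)) (cx (6 + (k : ℕ))) ≠ P.Q (cx (j : ℕ)) (cx (6 + (k : ℕ))) := by
      rcases hP with rfl | rfl
      · decide
      · decide
    obtain ⟨k, hk⟩ := hdec i j hij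
    have hz := htw (6 + (k : ℕ)) (by have := i.isLt; omega)
      (by have := j.isLt; omega)
    have hm' : ∀ i : Fin 4, (i : ℕ) / 6 < ln b (cx (i : ℕ)) := fun i => (hmem _).1 (hm i)
    have hkz : (6 + (k : ℕ)) / 6 < ln b (cx (6 + (k : ℕ))) := by
      have h0 : (6 + (k : ℕ)) / 6 = 1 := by omega
      rw [h0]
      exact hln _
    rw [h2 P hP (ln b) (i : ℕ) (6 + (k : ℕ)) (hm' i) hkz (by omega),
      h2 P hP (ln b) (j : ℕ) (6 + (k : ℕ)) (hm' j) hkz (by omega)] at hz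
    exact hk (Bool.eq_iff_iff.2 hz)
  refine ⟨hkn, ⟨⟨bs P, by omega⟩, hup⟩, ⟨⟨bs P, ⟨5, ?_, ?_⟩, by omega⟩, fun s _ => hup s⟩⟩
  · rw [hmem]
    have := hln (cx 5)
    omega
  · rcases hP with rfl | rfl <;> decide

end Pool.Agent.ACK.H62
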