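import Pool.Agent.ACK.StmtsC

/-! Row CIR of squad ACK (MP_0b396c_gt). -/

set_option autoImplicit false

namespace Pool.Agent.ACK.H62

open Pool.Agent.ACK.C

theorem cirLen (C : ℕ → List ℕ) (b : List Tk) (hcw : CW C b) (m : ℕ) (hm : m < b.length) :
    (BL C (b.take m)).length + 1 ≤ (BL C (b.take (m + 1))).length := by
  have h : b.take (m + 1) = b.take m ++ [b[m]] := by
    rw [List.take_add_one, List.getElem?_eq_getElem hm]
    rfl
  have hne := hcw.ne b[m] (List.getElem_mem hm)
  rw [h]
  unfold BL
  rw [List.flatMap_append, List.length_append]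
  have : 1 ≤ (bk C b[m]).length := by
    unfold bk
    have h0 : 0 < (C b[m].1).length := List.length_pos_iff.2 hne
    split_ifs
    · rw [List.length_reverse]; exact h0
    · exact h0
  simp only [List.flatMap_cons, List.flatMap_nil, List.append_nil]
  omega

theorem cirLt (C : ℕ → List ℕ) (b : List Tk) (hcw : CW C b) (m : ℕ) (d : ℕ)
    (hm : m + d ≤ b.length) :
    (BL C (b.take m)).length + d ≤ (BL C (b.take (m + d))).length := by
  induction d with
  | zero => simp
  | succ d ih =>
    have h1 := ih (by omega)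
    have h2 := cirLen C b hcw (m + d) (by omega)
    rw [show m + (d + 1) = m + d + 1 by ring]
    omega

theorem cirInj (c : ℕ) (C : ℕ → List ℕ) (b : List Tk) (hc : 1 ≤ c) (hcw : CW C b)
    (hl : (BL C b).length = 2 * c) (k k' : ℕ) (hk : k < k') (hk' : k' < b.length) :
    gp c C b k ≠ gp c C b k' := by
  intro h
  unfold gp at h
  have h0 : ((BL C (b.take (k + 1))).length : ZMod (2 * c)) =
      ((BL C (b.take (k' + 1))).length : ZMod (2 * c)) := sub_left_injective h
  have h1 := cirLt C b hcw 0 (k + 1) (by omega)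
  have h2 := cirLt C b hcw (k + 1) (k' - k) (by omega)
  have h3 := cirLt C b hcw (k' + 1) (b.length - (k' + 1)) (by omega)
  rw [show k + 1 + (k' - k) = k' + 1 by omega] at h2
  rw [show k' + 1 + (b.length - (k' + 1)) = b.length by omega, List.take_length, hl] at h3
  rw [Nat.zero_add] at h1
  rw [ZMod.natCast_eq_natCast_iff'] at h0
  have h4 : (BL C (b.take (k + 1))).length % (2 * c) = (BL C (b.take (k + 1))).length :=
    Nat.mod_eq_of_lt (by omega)
  rw [h4] at h0
  rcases Nat.lt_or_ge (BL C (b.take (k' + 1))).length (2 * c) with h5 | h5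
  · rw [Nat.mod_eq_of_lt h5] at h0
    omega
  · have h6 : (BL C (b.take (k' + 1))).length = 2 * c := by omega
    rw [h6, Nat.mod_self] at h0
    omega

theorem cirTk (b : List Tk) (k : ℕ) (hk : k < b.length) : tk b k = b[k] := by
  unfold tk
  rw [List.getD_eq_getElem?_getD, List.getElem?_eq_getElem hk]
  rfl

theorem cirDec (b : List Tk) (x y : ℕ) (hxy : x < y) (hy : y < b.length) :
    ∃ P Q R, b = P ++ tk b x :: (Q ++ tk b y :: R) := by
  refine ⟨b.take x, (b.drop (x + 1)).take (y - (x + 1)), b.drop (y + 1), ?_⟩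
  rw [cirTk b x (by omega), cirTk b y hy]
  have h1 : b = b.take x ++ b.drop x := (List.take_append_drop x b).symm
  have h2 : b.drop x = b[x] :: b.drop (x + 1) := List.drop_eq_getElem_cons (by omega)
  have h3 : b.drop (x + 1) = (b.drop (x + 1)).take (y - (x + 1)) ++
      (b.drop (x + 1)).drop (y - (x + 1)) := (List.take_append_drop _ _).symm
  have h4 : (b.drop (x + 1)).drop (y - (x + 1)) = b.drop y := by
    rw [List.drop_drop]
    congr 1
    omega
  have h5 : b.drop y = b[y] :: b.drop (y + 1) := List.drop_eq_getElem_cons hy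
  rw [← h5, ← h4, ← h3, ← h2]
  exact h1

theorem cirRev (C : ℕ → List ℕ) (t t' : Tk) (h : t.1 = t'.1) (h' : t.2 ≠ t'.2) :
    bk C t' = (bk C t).reverse := by
  obtain ⟨e, d⟩ := t
  obtain ⟨e', d'⟩ := t'
  have he : e = e' := h
  have hd : d ≠ d' := h'
  subst he
  unfold bk
  cases d <;> cases d' <;> simp at hd ⊢

theorem cir (_h1 : CwgStmt) (h2 : C.LetStmt) : C.CirStmt := by
  intro c C b s hS x y hxy hy hch
  have hlen : b.length = 12 := hS.len
  have hcs := hS.cs
  have hc : 1 ≤ c := by omega
  have hl := hS.kn.len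
  have hL := h2 c C b hc hS.cw hl
  have hsub : ∀ p : ZMod (2 * c), p + 1 - 1 = p := fun p => by ring
  -- the type condition
  obtain ⟨P, Q, R, hdec⟩ := cirDec b x y hxy (by omega)
  have hty := hS.ty P Q R (tk b x) (tk b y) hdec hch
  have hmem : ∀ z t, z ∈ bk C t → z ∈ C t.1 := by
    intro z t hz
    unfold bk at hz
    split_ifs at hz
    · exact List.mem_reverse.1 hz
    · exact hz
  set x' := (x + 11) % 12 with hx'
  set y' := (y + 11) % 12 with hy'
  have ex : (x' + 1) % b.length = x := by rw [hlen]; omega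
  have ey : (y' + 1) % b.length = y := by rw [hlen]; omega
  have lx' : x' < b.length := by rw [hlen]; omega
  have ly' : y' < b.length := by rw [hlen]; omega
  obtain ⟨⟨_, z1, _, Z1, -, hz1, -, hw1⟩, -, hi1⟩ := hL x' lx'
  obtain ⟨⟨_, z2, _, Z2, -, hz2, -, hw2⟩, -, hi2⟩ := hL y' ly'
  obtain ⟨⟨z3, _, Z3, _, hz3, -, hw3, -⟩, -, -⟩ := hL x (by omega)
  obtain ⟨⟨z4, _, Z4, _, hz4, -, hw4, -⟩, -, -⟩ := hL y (by omega)
  rw [ex] at hz1
  rw [ey] at hz2
  have m1 : z1 ∈ C (tk b x).1 := hmem _ _ (by rw [hz1]; simp)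
  have m3 : z3 ∈ C (tk b x).1 := hmem _ _ (by rw [hz3]; simp)
  constructor
  · intro hd
    have ht : tk b x = tk b y := Prod.ext hch hd
    rw [← ht, hz1] at hz2
    rw [← ht, hz3] at hz4
    have e12 : z1 = z2 := (List.cons.inj hz2).1
    have e34 : z3 = z4 := by
      have := List.append_inj' hz4 rfl
      simpa using this.2
    have s1 : s z1 = false := (hty z1 m1).2 hd
    have s3 : s z3 = false := (hty z3 m3).2 hd
    constructor
    · apply Quot.sound
      refine ⟨gp c C b x' + 1, gp c C b y' + 1, ?_, by rw [hw1, hw2, e12],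
        Or.inr ⟨by rw [hw1]; exact s1, Or.inl ⟨(hsub _).symm, (hsub _).symm⟩⟩⟩
      intro h
      have h' : gp c C b x' = gp c C b y' := add_right_cancel h
      rcases Nat.lt_trichotomy x' y' with h3 | h3 | h3
      · exact cirInj c C b hc hS.cw hl x' y' h3 ly' h'
      · omega
      · exact cirInj c C b hc hS.cw hl y' x' h3 lx' h'.symm
    · apply Quot.sound
      exact ⟨gp c C b x, gp c C b y, cirInj c C b hc hS.cw hl x y hxy (by omega),
        by rw [hw3, hw4, e34], Or.inr ⟨by rw [hw3]; exact s3, Or.inr ⟨rfl, rfl⟩⟩⟩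
  · intro hd
    have hrev : bk C (tk b y) = (bk C (tk b x)).reverse := cirRev C _ _ hch hd
    have s1 : s z1 = true := by
      have := hty z1 m1
      cases h7 : s z1
      · exact absurd (this.1 h7) hd
      · rfl
    have s3 : s z3 = true := by
      have := hty z3 m3
      cases h7 : s z3
      · exact absurd (this.1 h7) hd
      · rfl
    have e14 : z1 = z4 := by
      have h8 : Z1.reverse ++ [z1] = Z4 ++ [z4] := by
        rw [← hz4, hrev, hz1]
        simp
      have := List.append_inj' h8 rfl
      simpa using this.2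
    have e32 : z3 = z2 := by
      have h8 : z3 :: Z3.reverse = z2 :: Z2 := by
        rw [← hz2, hrev, hz3]
        simp
      exact (List.cons.inj h8).1
    constructor
    · apply Quot.sound
      refine ⟨gp c C b x' + 1, gp c C b y, ?_, by rw [hw1, hw4, e14],
        Or.inl ⟨by rw [hw1]; exact s1, (hsub _).symm, rfl⟩⟩
      intro h
      have := hi1 y (by omega) h
      rw [ex] at this
      omega
    · symm
      apply Quot.sound
      refine ⟨gp c C b y' + 1, gp c C b x, ?_, by rw [hw2, hw3, e32],
        Or.inl ⟨by rw [hw2, ← e32]; exact s3, (hsub _).symm, rfl⟩⟩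
      intro h
      have := hi2 x (by omega) h
      rw [ey] at this
      omega

end Pool.Agent.ACK.H62
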