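import Pool.Agent.ACK.StmtsA

/-! Row FEW of squad ACK (MP_0b396c_gt). -/

set_option autoImplicit false

namespace Pool.Agent.ACK.H62

theorem few (h1 : GfwStmt) (h2 : PrwStmt) (h3 : RotStmt) (h4 : NlpStmt) (h5 : SizStmt)
    (h6 : GpbStmt) (h7 : CstStmt) : FewStmt := by
  intro c l s hc hk hn
  have hc1 : 1 ≤ c := by omega
  haveI : NeZero (2 * c) := ⟨by omega⟩
  have h3c : 3 ≤ 2 * c := by omega
  have hnl := h4 (2 * c) (wd c l) h3c (h1 c l hc1 hk.len hk.gw) (h2 c l hk hc1)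
  obtain ⟨C, b, hcw, -, hrot, hb⟩ := h7 c l s hc1 hk.len hk.gw hnl
  obtain ⟨k, hk'⟩ := hrot
  refine ⟨k, C, b, hcw, ?_, hk'⟩
  rcases hb with hb | hb
  · omega
  obtain ⟨-, hnc, hkn⟩ := h3 c l (BL C b) hc1 hk.len ⟨k, hk'⟩
  have hkb : Kn c (BL C b) := hkn hk
  have hgf : Gf (wd c (BL C b)) := h1 c (BL C b) hc1 hkb.len hkb.gw
  have hpr : PrF (wd c (BL C b)) := h2 c (BL C b) hkb hc1
  have hnl' := h4 (2 * c) (wd c (BL C b)) h3c hgf hpr
  have hs := (h5 (2 * c) (wd c (BL C b)) s hgf hnl').1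
  rw [hnc s] at hs
  have hinj := (h6 c C b hc1 hcw hkb.len).2
  have hcard : b.length + Nat.card {p : ZMod (2 * c) // ∃ q, Bg (wd c (BL C b)) s p q} ≤ 2 * c := by
    have hf : Function.Injective
        (Sum.elim (fun k : Fin b.length => gp c C b k.val)
          (fun p : {p : ZMod (2 * c) // ∃ q, Bg (wd c (BL C b)) s p q} => p.val)) := by
      rintro (k | ⟨p, hp⟩) (k' | ⟨p', hp'⟩) hh
      · simp only [Sum.elim_inl] at hh
        have := hinj k.val k.isLt k'.val k'.isLt hh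
        rw [Fin.ext this]
      · simp only [Sum.elim_inl, Sum.elim_inr] at hh
        obtain ⟨q, hq⟩ := hp'
        exact absurd (hh ▸ hq) (hb k.val k.isLt q)
      · simp only [Sum.elim_inl, Sum.elim_inr] at hh
        obtain ⟨q, hq⟩ := hp
        exact absurd (hh ▸ hq) (hb k'.val k'.isLt q)
      · simp only [Sum.elim_inr] at hh
        subst hh
        rfl
    have := Nat.card_le_card_of_injective _ hf
    rw [Nat.card_sum, Nat.card_fin, Nat.card_zmod] at this
    exact this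
  omega

end Pool.Agent.ACK.H62
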