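import Pool.Agent.ACK.StmtsB

/-! Row RKA of squad ACK (MP_0b396c_gt). -/

set_option autoImplicit false

namespace Pool.Agent.ACK.H62

open Pool.Agent.ACK.B

theorem rka (h1 : LtcStmt) : RkaStmt := by
  intro c w hc hg
  haveI : NeZero (2 * c) := ⟨by omega⟩
  classical
  haveI : Finite (Set.range w) := Set.finite_range w
  haveI := Fintype.ofFinite (Set.range w)
  let D : (Set.range w → ZMod 2) →ₗ[ZMod 2] (ZMod (2 * c) → ZMod 2) :=
    { toFun := fun v p => v ⟨w p, p, rfl⟩ + v ⟨w (p + 1), p + 1, rfl⟩
      map_add' := by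
        intro a b
        funext p
        simp only [Pi.add_apply]
        ring
      map_smul' := by
        intro r a
        funext p
        simp only [Pi.smul_apply, smul_eq_mul, RingHom.id_apply]
        ring }
  have hD : ∀ v p, D v p = v ⟨w p, p, rfl⟩ + v ⟨w (p + 1), p + 1, rfl⟩ := fun _ _ => rfl
  have hr : LinearMap.range D = UB w := by
    ext S
    constructor
    · rintro ⟨v, rfl⟩
      refine ⟨fun i => v ⟨w i, i, rfl⟩, fun i j h => ?_, fun p => rfl⟩
      have : (⟨w i, i, rfl⟩ : Set.range w) = ⟨w j, j, rfl⟩ := Subtype.ext h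
      simp only [this]
    · rintro ⟨u, hu, hS⟩
      refine ⟨fun x => u (Classical.choose x.2), ?_⟩
      funext p
      have e : ∀ q, u (Classical.choose (⟨w q, q, rfl⟩ : Set.range w).2) = u q :=
        fun q => hu _ _ (Classical.choose_spec (⟨w q, q, rfl⟩ : Set.range w).2)
      rw [hD, hS, e p, e (p + 1)]
  have hk : LinearMap.ker D = Submodule.span (ZMod 2) {fun _ => 1} := by
    ext v
    rw [LinearMap.mem_ker, Submodule.mem_span_singleton]
    constructor
    · intro hv
      have hs : ∀ p, v ⟨w (p + 1), p + 1, rfl⟩ = v ⟨w p, p, rfl⟩ := by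
        intro p
        have h := congrFun hv p
        rw [hD] at h
        have h' : v ⟨w p, p, rfl⟩ + v ⟨w (p + 1), p + 1, rfl⟩ = 0 := h
        exact (CharTwo.add_eq_zero.1 h').symm
      have hn : ∀ k : ℕ, v ⟨w (k : ZMod (2 * c)), (k : ZMod (2 * c)), rfl⟩ = v ⟨w 0, 0, rfl⟩ := by
        intro k
        induction k with
        | zero => simp
        | succ k ih =>
          have := hs (k : ZMod (2 * c))
          rw [ih] at this
          rw [← this]
          simp
      refine ⟨v ⟨w 0, 0, rfl⟩, ?_⟩
      funext x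
      obtain ⟨x, i, rfl⟩ := x
      have := hn i.val
      simp only [ZMod.natCast_val, ZMod.cast_id', id_eq] at this
      simp [this]
    · rintro ⟨a, rfl⟩
      funext p
      rw [hD]
      simp [CharTwo.add_self_eq_zero]
  have hf := LinearMap.finrank_range_add_finrank_ker D
  rw [hr, hk, finrank_span_singleton, Module.finrank_fintype_fun_eq_card,
    ← Nat.card_eq_fintype_card, h1 c w hc hg] at hf
  · exact hf
  · intro h
    have := congrFun h ⟨w 0, 0, rfl⟩
    simp at this

end Pool.Agent.ACK.H62
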